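import Pool.Agent.TH581.HH.Stm

/-!
# HH-CONE: projection times vertical chord is at most `n` times the volume
-/

set_option autoImplicit false

noncomputable section

open MeasureTheory Set
open scoped ENNReal NNReal Pointwise

namespace Pool.Agent.TH75.HHCone

open Pool.Agent.TH581.HH

lemma integral_pow_aux (m : ℕ) {l : ℝ} (hl : 0 < l) :
    ∫⁻ t in Ioc 0 l, ENNReal.ofReal ((1 - t / l) ^ m) = ENNReal.ofReal (l / (m + 1)) := by
  have hc : Continuous fun t : ℝ => (1 - t / l) ^ m := by fun_prop
  rw [← ofReal_integral_eq_lintegral_ofReal]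
  · congr 1
    rw [← intervalIntegral.integral_of_le hl.le]
    have hd : ∀ t ∈ uIcc 0 l, HasDerivAt (fun t : ℝ => -(l / (m + 1)) * (1 - t / l) ^ (m + 1))
        ((1 - t / l) ^ m) t := by
      intro t _
      have h1 : HasDerivAt (fun t : ℝ => 1 - t / l) (-(1 / l)) t := by
        have := ((hasDerivAt_id t).div_const l).const_sub 1
        simpa using this
      have h2 := (h1.pow (m + 1)).const_mul (-(l / (m + 1)))
      refine h2.congr_deriv ?_
      rw [Nat.add_sub_cancel]
      push_cast
      have hm : (m : ℝ) + 1 ≠ 0 := by positivity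
      field_simp
    rw [intervalIntegral.integral_eq_sub_of_hasDerivAt hd (hc.intervalIntegrable 0 l)]
    have h3 : 1 - l / l = 0 := by rw [div_self hl.ne', sub_self]
    simp only [h3, zero_div, sub_zero, one_pow, mul_one]
    rw [zero_pow (Nat.succ_ne_zero m)]
    ring
  · exact (hc.integrableOn_Icc (a := 0) (b := l)).mono_set Ioc_subset_Icc_self
  · filter_upwards [ae_restrict_mem measurableSet_Ioc] with t ht
    have h1 : t / l ≤ 1 := (div_le_one hl).2 ht.2
    have h2 : 0 ≤ 1 - t / l := by linarith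
    positivity

/-- the inequality in `ℝ × ℝ^m` -/
lemma core {m : ℕ} {K : Set (ℝ × (Fin m → ℝ))} (hK : IsCompact K) (hKc : Convex ℝ K)
    (z₀ : Fin m → ℝ) (t₀ l : ℝ) (hl : 0 < l) (h : ∀ t ∈ Icc t₀ (t₀ + l), (t, z₀) ∈ K) :
    volume (Prod.snd '' K) * ENNReal.ofReal l ≤ (m + 1 : ℕ) * volume K := by
  have hKm : MeasurableSet K := hK.measurableSet
  have hfst : IsCompact (Prod.fst '' K) := hK.image continuous_fst
  obtain ⟨L, hL⟩ : ∃ L : (Fin m → ℝ) → ℝ≥0∞,
    L = fun y => volume ((fun t : ℝ => (t, y)) ⁻¹' K) := ⟨_, rfl⟩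
  have hLm : Measurable L := by
    rw [hL]
    exact measurable_measure_prodMk_right hKm
  have hLfin : ∀ y, L y ≠ ⊤ := by
    intro y
    rw [hL]
    refine ne_top_of_le_ne_top hfst.measure_lt_top.ne (measure_mono ?_)
    intro t ht
    exact ⟨(t, y), ht, rfl⟩
  have hvol : volume K = ∫⁻ y, ENNReal.ofReal (L y).toReal := by
    rw [Measure.volume_eq_prod, Measure.prod_apply_symm hKm]
    refine lintegral_congr fun y => ?_
    rw [ENNReal.ofReal_toReal (hLfin y), hL]
  rw [lintegral_eq_lintegral_meas_le volume (Filter.Eventually.of_forall fun y =>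
    ENNReal.toReal_nonneg) hLm.ennreal_toReal.aemeasurable] at hvol
  have hkey : ∀ t ∈ Ioc 0 l, ENNReal.ofReal ((1 - t / l) ^ m) * volume (Prod.snd '' K) ≤
      volume {y | t ≤ (L y).toReal} := by
    intro t ht
    obtain ⟨s, hs⟩ : ∃ s, s = t / l := ⟨_, rfl⟩
    have hs0 : 0 < s := by rw [hs]; exact div_pos ht.1 hl
    have hs1 : s ≤ 1 := by rw [hs]; exact (div_le_one hl).2 ht.2
    have hsl : t = s * l := by rw [hs]; field_simp
    have hsub : AffineMap.homothety z₀ (1 - s) '' (Prod.snd '' K) ⊆ {y | t ≤ (L y).toReal} := by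
      rintro _ ⟨_, ⟨⟨t₁, z⟩, hz, rfl⟩, rfl⟩
      change t ≤ (L (AffineMap.homothety z₀ (1 - s) z)).toReal
      obtain ⟨y, hy⟩ : ∃ y, y = AffineMap.homothety z₀ (1 - s) z := ⟨_, rfl⟩
      rw [← hy]
      have hy2 : y = (1 - s) • z + s • z₀ := by
        rw [hy, AffineMap.homothety_apply]
        simp only [vsub_eq_sub, vadd_eq_add]
        module
      rw [← ENNReal.ofReal_le_iff_le_toReal (hLfin y)]
      have hIcc : Icc ((1 - s) * t₁ + s * t₀) ((1 - s) * t₁ + s * (t₀ + l)) ⊆
          (fun t : ℝ => (t, y)) ⁻¹' K := by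
        intro x hx
        obtain ⟨u, hu⟩ : ∃ u, u = (x - (1 - s) * t₁) / s := ⟨_, rfl⟩
        have hxu : x = (1 - s) * t₁ + s * u := by
          rw [hu]
          field_simp
          ring
        have hu1 : u ∈ Icc t₀ (t₀ + l) := by
          have h1 := hx.1
          have h2 := hx.2
          rw [hxu] at h1 h2
          constructor
          · have : s * t₀ ≤ s * u := by linarith
            exact le_of_mul_le_mul_left this hs0
          · have : s * u ≤ s * (t₀ + l) := by linarith
            exact le_of_mul_le_mul_left this hs0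
        have h3 := hKc hz (h u hu1) (by linarith : 0 ≤ 1 - s) hs0.le (by ring)
        change (x, y) ∈ K
        have h4 : (x, y) = (1 - s) • (t₁, z) + s • (u, z₀) := by
          rw [hxu, hy2]
          rfl
        rw [h4]
        exact h3
      calc ENNReal.ofReal t = volume (Icc ((1 - s) * t₁ + s * t₀)
            ((1 - s) * t₁ + s * (t₀ + l))) := by
            rw [Real.volume_Icc]
            congr 1
            rw [hsl]
            ring
        _ ≤ L y := by
            rw [hL]
            exact measure_mono hIcc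
    calc ENNReal.ofReal ((1 - t / l) ^ m) * volume (Prod.snd '' K)
        = volume (AffineMap.homothety z₀ (1 - s) '' (Prod.snd '' K)) := by
          rw [Measure.addHaar_image_homothety, ← hs, Module.finrank_fin_fun, abs_of_nonneg]
          exact pow_nonneg (by linarith) m
      _ ≤ _ := measure_mono hsub
  have hle : ENNReal.ofReal (l / (m + 1)) * volume (Prod.snd '' K) ≤ volume K := by
    rw [hvol, ← integral_pow_aux m hl, ← lintegral_mul_const _ (by fun_prop)]
    calc ∫⁻ t in Ioc 0 l, ENNReal.ofReal ((1 - t / l) ^ m) * volume (Prod.snd '' K)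
        ≤ ∫⁻ t in Ioc 0 l, volume {y | t ≤ (L y).toReal} :=
          setLIntegral_mono' measurableSet_Ioc hkey
      _ ≤ _ := lintegral_mono_set Ioc_subset_Ioi_self
  calc volume (Prod.snd '' K) * ENNReal.ofReal l
      = (m + 1 : ℕ) * (ENNReal.ofReal (l / (m + 1)) * volume (Prod.snd '' K)) := by
        have h1 : ENNReal.ofReal l = (m + 1 : ℕ) * ENNReal.ofReal (l / (m + 1)) := by
          rw [← ENNReal.ofReal_natCast, ← ENNReal.ofReal_mul (by positivity)]
          congr 1
          push_cast
          field_simp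
        rw [h1]
        ring
    _ ≤ _ := by gcongr

theorem t_cone : S_CONE := by
  intro m K hK hKc z₀ t₀ l hl h
  rcases hl.eq_or_lt with h0 | h0
  · rw [← h0, ENNReal.ofReal_zero, mul_zero]
    exact bot_le
  have e1 := volume_preserving_piFinSuccAbove (fun _ : Fin (m + 1) => ℝ) 0
  have e2 := PiLp.volume_preserving_ofLp (Fin (m + 1))
  have e := e1.comp e2
  -- the linear map back
  let g : ℝ × (Fin m → ℝ) →ₗ[ℝ] E (m + 1) :=
    { toFun := fun p => WithLp.toLp 2 (Fin.cons p.1 p.2)
      map_add' := by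
        intro p q
        ext i
        refine Fin.cases ?_ (fun j => ?_) i <;> simp
      map_smul' := by
        intro c p
        ext i
        refine Fin.cases ?_ (fun j => ?_) i <;> simp }
  have hgc : Continuous g := g.continuous_of_finiteDimensional
  obtain ⟨φ, hφ⟩ : ∃ φ : E (m + 1) → ℝ × (Fin m → ℝ), φ = fun x => (x 0, tl x) := ⟨_, rfl⟩
  have hφc : Continuous φ := by
    rw [hφ]
    exact Continuous.prodMk (by fun_prop) cont_tl
  have hgφ : ∀ x, g (φ x) = x := by
    intro x
    rw [hφ]
    ext i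
    refine Fin.cases ?_ (fun j => ?_) i <;> rfl
  have hφg : ∀ p, φ (g p) = p := by
    intro p
    rw [hφ]
    rfl
  have hφe : MeasurePreserving φ := by
    have : φ = (MeasurableEquiv.piFinSuccAbove (fun _ : Fin (m + 1) => ℝ) 0) ∘ WithLp.ofLp := by
      rw [hφ]
      rfl
    rw [this]
    exact e
  obtain ⟨K', hK'⟩ : ∃ K', K' = g ⁻¹' K := ⟨_, rfl⟩
  have hK'i : K' = φ '' K := by
    rw [hK']
    ext p
    constructor
    · intro hp
      exact ⟨g p, hp, hφg p⟩
    · rintro ⟨x, hx, rfl⟩
      change g (φ x) ∈ K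
      rwa [hgφ]
  have hK'c : IsCompact K' := by
    rw [hK'i]
    exact hK.image hφc
  have hK'v : Convex ℝ K' := by
    rw [hK']
    exact hKc.linear_preimage g
  have hKK' : φ ⁻¹' K' = K := by
    rw [hK']
    ext x
    change g (φ x) ∈ K ↔ x ∈ K
    rw [hgφ]
  have hvK : volume K = volume K' := by
    rw [← hφe.measure_preimage hK'c.measurableSet.nullMeasurableSet, hKK']
  have hpr : volume (pr '' K) = volume (Prod.snd '' K') := by
    have h1 : pr '' K = (WithLp.ofLp : E m → (Fin m → ℝ)) ⁻¹' (Prod.snd '' K') := by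
      ext y
      constructor
      · rintro ⟨x, hx, rfl⟩
        refine ⟨φ x, ?_, ?_⟩
        · rw [hK'i]
          exact ⟨x, hx, rfl⟩
        · rw [hφ]
          rfl
      · rintro ⟨p, hp, hpy⟩
        rw [hK'] at hp
        refine ⟨g p, hp, ?_⟩
        have h2 : pr (g p) = WithLp.toLp 2 p.2 := rfl
        rw [h2, hpy]
    rw [h1]
    exact (PiLp.volume_preserving_ofLp (Fin m)).measure_preimage
      (hK'c.image continuous_snd).measurableSet.nullMeasurableSet
  rw [hpr, hvK]
  refine core hK'c hK'v (fun i => z₀ i) t₀ l h0 fun t ht => ?_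
  rw [hK']
  exact h t ht

end Pool.Agent.TH75.HHCone
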